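import Pool.Agent.K1H78.HS.Main

/-!
# Hot-spot sets are finite or uncountable, for all vertex strengths

For every compact metric graph and all strengths of the delta vertex conditions the hot-spot set is
finite or uncountable; it consists of finitely many points and open arcs of edges. So it is never
countably infinite.

The proof. Let `μ` be the second eigenvalue. Cut every edge into short pieces. On a piece every
solution of `-f'' = μ f` is `u * C(z) + v * S(z)`, where `C`, `S` are the fundamental solutions, and
`z ↦ (C z, S z)` is a bijection onto the arc `a ^ 2 + μ * b ^ 2 = 1`, `a > 0`, `0 ≤ b ≤ S(end)` of a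
conic, for any sign of `μ`. The data `(u, v)` on all the pieces of the solutions on the graph form a
linear space. Hence, in the coordinate `b = S z`, the hot spots of a piece are given by a first
order formula over the ordered field of real numbers with real parameters, and by the
Tarski-Seidenberg theorem (which is in the starting library, `Pool.Agent.H581R2`) they form a finite
union of points and intervals.
-/

set_option autoImplicit false

namespace Pool.Agent.Results.MP_1debac_an.FiniteOrUncountable

open Set Pool.Agent.R228.QG

/-- Let `Γ` be a compact metric graph and let `α v` be any real strengths of the delta conditions at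
its vertices. Then the hot-spot set `M` is finite or uncountable. Moreover for each edge `e` there is
a finite set `G e` of real numbers such that of two points `x ≤ y` inside `e` with no element of `G e`
between them (`x` and `y` included) either both or none are in `M`: so `M` consists of finitely many
points and open arcs. -/
theorem result {V E : Type} [Fintype V] [Fintype E] [DecidableEq V] (Γ : MGraph V E) (α : V → ℝ) :
    ((hotSet Γ α).Finite ∨ ¬ (hotSet Γ α).Countable) ∧
    ∃ G : E → Set ℝ, (∀ e, (G e).Finite) ∧
      ∀ (e : E) (x y : ℝ) (hx : 0 < x ∧ x < Γ.len e) (hy : 0 < y ∧ y < Γ.len e), x ≤ y →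
        (∀ z ∈ Icc x y, z ∉ G e) →
        ((Sum.inr ⟨(e, x), hx⟩ : Γ.Point) ∈ hotSet Γ α ↔
          (Sum.inr ⟨(e, y), hy⟩ : Γ.Point) ∈ hotSet Γ α) :=
  ⟨Pool.Agent.K1H78.HS.finite_or_uncountable Γ α, Pool.Agent.K1H78.HS.locally_constant Γ α⟩

end Pool.Agent.Results.MP_1debac_an.FiniteOrUncountable
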